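import Pool.Agent.Helper62.CX.Stm
import Pool.Agent.Helper12.BM.KFewG
import Pool.Agent.Helper62.BW.Frame

/-!
# C14: the soft Stepanov method for the eigen-summands of general families of cyclic covers
-/

set_option autoImplicit false

open Polynomial Matrix Finset

namespace Pool.Agent.Helper36.CX

open Pool.Agent.Helper62.BM Pool.Agent.Helper62.CX
open Pool.Agent.Helper62.BW (dt coeff_dt map_dt sep_clear sep_map map_ne)
open Pool.Agent.Helper36.BM (mon)
open Pool.Agent.Helper12.BM (stepJ Jd Mm mon_ode' map_Mm natDegree_mon Fk sum_Fk M0k ode_zero_k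
  ι_inj)

section maps

variable {A B : Type} [CommRing A] [CommRing B] (φ : A →+* B)

theorem map_Lam (m r : ℕ) (a b a' b' : A[X][X]) :
    (Lam m r a b a' b').map (mapRingHom φ) = Lam m r (a.map (mapRingHom φ))
      (b.map (mapRingHom φ)) (a'.map (mapRingHom φ)) (b'.map (mapRingHom φ)) := by
  rw [Lam, Lam, Polynomial.map_add, Polynomial.map_mul, Polynomial.map_mul, Polynomial.map_mul,
    Polynomial.map_mul, Polynomial.map_natCast, Polynomial.map_natCast]

theorem map_relC {m r N : ℕ} {a b : A[X][X]} {W : A[X]} {P S : Fin N → A[X][X]}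
    (h : RelC m r N a b W P S) :
    RelC m r N (a.map (mapRingHom φ)) (b.map (mapRingHom φ)) (W.map φ)
      (fun l => (P l).map (mapRingHom φ)) (fun l => (S l).map (mapRingHom φ)) := by
  intro l
  obtain ⟨h1, h2, h3⟩ := h l
  refine ⟨lt_of_le_of_lt natDegree_map_le h1, natDegree_map_le.trans h2, ?_⟩
  have h4 := congrArg (fun q => Polynomial.map (mapRingHom φ) q) h3
  simp only [Polynomial.map_mul, Polynomial.map_add, Polynomial.map_pow, Polynomial.map_X,
    Polynomial.map_C, Polynomial.map_natCast, map_dt, map_Lam, coe_mapRingHom] at h4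
  rw [derivative_map, derivative_map]
  exact h4

theorem map_Mc {N : ℕ} (P S : Fin N → A[X][X]) (i l : Fin N) :
    (Mc P S i l).map φ = Mc (fun l => (P l).map (mapRingHom φ))
      (fun l => (S l).map (mapRingHom φ)) i l := by
  rw [Mc, Matrix.of_apply, Mc, Matrix.of_apply, Polynomial.map_neg, derivative_map]
  congr 1
  have : ((P l).map (mapRingHom φ) + (derivative (S l)).map (mapRingHom φ)) =
      ((P l) + derivative (S l)).map (mapRingHom φ) := by
    rw [Polynomial.map_add]
  rw [this, coeff_map, coe_mapRingHom]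

theorem map_YC {p qa qb d N : ℕ} (a b : A[X]) :
    (YC p qa qb d N a b).map φ = YC p qa qb d N (a.map φ) (b.map φ) := by
  ext1 i l
  rw [Matrix.map_apply, YC, Matrix.of_apply, YC, Matrix.of_apply, ← coeff_map]
  simp only [Polynomial.map_mul, Polynomial.map_pow, Polynomial.map_X]

theorem map_Wc {N : ℕ} (D : Cdat A N) : (D.map φ).W = D.W.map φ := by
  show (X - Polynomial.C (φ D.c)) * D.w.map φ = ((X - Polynomial.C D.c) * D.w).map φ
  rw [Polynomial.map_mul, Polynomial.map_sub, Polynomial.map_X, Polynomial.map_C]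

end maps

/-- The frame over the reductions. -/
theorem frameC (hHWb : C_HWb) (hHWrank : C_HWrank) {A : Type} [CommRing A] [IsDomain A]
    {m r na nb N : ℕ} (hr : 0 < r) (hrm : r < m) (hm : ¬ m ∣ r * na + (m - r) * nb)
    {a b : A[X][X]} {D : Cdat A N} {P S : Fin N → A[X][X]} (hF : FamC m r na nb a b D P S)
    (hOk : D.Ok) :
    ∃ a₁ : A, a₁ ≠ 0 ∧ ∀ (p : ℕ) [Fact p.Prime] (k : Type) [Field k] [CharP k p] (φ : A →+* k),
      N + 1 < p → m ∣ p - 1 → φ a₁ ≠ 0 →
      (∀ i l, (D.map φ).W * derivative (YC p (r * ((p - 1) / m)) ((m - r) * ((p - 1) / m))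
          (dC m r na nb) N (a.map (mapRingHom φ)) (b.map (mapRingHom φ)) i l) =
        ∑ j, YC p (r * ((p - 1) / m)) ((m - r) * ((p - 1) / m)) (dC m r na nb) N
          (a.map (mapRingHom φ)) (b.map (mapRingHom φ)) i j * (D.map φ).M j l) ∧
      (∀ D' : Der (KX k), IsDer D' → ∀ i l,
        D' (((YC p (r * ((p - 1) / m)) ((m - r) * ((p - 1) / m)) (dC m r na nb) N
          (a.map (mapRingHom φ)) (b.map (mapRingHom φ))).map (ι k)) i l) =
          ((YC p (r * ((p - 1) / m)) ((m - r) * ((p - 1) / m)) (dC m r na nb) N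
          (a.map (mapRingHom φ)) (b.map (mapRingHom φ))).map (ι k) * (D.map φ).B) i l) ∧
      (∀ c : Fin (dC m r na nb) → KX k,
        c ᵥ* (YC p (r * ((p - 1) / m)) ((m - r) * ((p - 1) / m)) (dC m r na nb) N
          (a.map (mapRingHom φ)) (b.map (mapRingHom φ))).map (ι k) = 0 → c = 0) := by
  classical
  obtain ⟨⟨hma, hmb, hda, hdb, hsep⟩, hN, hRel, hM⟩ := hF
  obtain ⟨u, v, s, hs, huv⟩ := sep_clear (a * b) hsep
  refine ⟨D.w.eval D.c * s.leadingCoeff, mul_ne_zero hOk.1 (leadingCoeff_ne_zero.2 hs),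
    fun p _ k _ _ φ hp hmp hφ => ?_⟩
  rw [map_mul] at hφ
  obtain ⟨a', ha'⟩ : ∃ a' : k[X][X], a' = a.map (mapRingHom φ) := ⟨_, rfl⟩
  obtain ⟨b', hb'⟩ : ∃ b' : k[X][X], b' = b.map (mapRingHom φ) := ⟨_, rfl⟩
  rw [← ha', ← hb']
  set P' : Fin N → k[X][X] := fun l => (P l).map (mapRingHom φ) with hP'
  set S' : Fin N → k[X][X] := fun l => (S l).map (mapRingHom φ) with hS'
  have hRel' : RelC m r N a' b' (D.map φ).W P' S' := by
    rw [map_Wc, ha', hb']
    exact map_relC φ hRel
  have hM' : ∀ i l, (D.map φ).M i l = Mc P' S' i l := by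
    intro i l
    show (D.M i l).map φ = _
    rw [hM, map_Mc]
  have hode : ∀ i l, (D.map φ).W * derivative (YC p (r * ((p - 1) / m)) ((m - r) * ((p - 1) / m))
          (dC m r na nb) N a' b' i l) =
        ∑ j, YC p (r * ((p - 1) / m)) ((m - r) * ((p - 1) / m)) (dC m r na nb) N
          a' b' i j * (D.map φ).M j l := by
    intro i l
    rw [hHWb k p m r (dC m r na nb) N hmp hr hrm a' b' (D.map φ).W P' S' hRel' i l]
    exact Finset.sum_congr rfl fun j _ => by rw [hM']
  have hW0 : (D.map φ).W ≠ 0 := by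
    intro h0
    rcases mul_eq_zero.1 h0 with h1 | h1
    · exact X_sub_C_ne_zero _ h1
    · apply left_ne_zero_of_mul hφ
      have h2 : D.w.map φ = 0 := h1
      rw [← Polynomial.eval_map_apply, h2, eval_zero]
  have hWι : ι k (D.map φ).W ≠ 0 := fun h0 => hW0 (ι_inj k (h0.trans (map_zero _).symm))
  refine ⟨hode, fun D' hD' i l => ?_, fun c hc => ?_⟩
  · rw [Matrix.map_apply, hD', Matrix.mul_apply]
    apply mul_left_cancel₀ hWι
    rw [← map_mul, hode, map_sum, Finset.mul_sum]
    refine Finset.sum_congr rfl fun j _ => ?_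
    rw [Cdat.B, Matrix.of_apply, map_mul, Matrix.map_apply]
    field_simp
  · rw [map_YC] at hc
    refine hHWrank (KX k) p m r na nb N hmp hr hrm hm hN (by omega) (a'.map (ι k)) (b'.map (ι k))
      ?_ ?_ ?_ c hc
    · rw [ha', ((hma.map _).natDegree_map _), hma.natDegree_map, hda]
    · rw [hb', ((hmb.map _).natDegree_map _), hmb.natDegree_map, hdb]
    · have h1 : a'.map (ι k) * b'.map (ι k) = (a * b).map ((ι k).comp (mapRingHom φ)) := by
        rw [ha', hb', Polynomial.map_map, Polynomial.map_map, Polynomial.map_mul]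
      rw [h1]
      refine sep_map _ (a * b) u v s huv ?_
      intro h0
      exact map_ne φ s (right_ne_zero_of_mul hφ) (ι_inj k (h0.trans (map_zero _).symm))

theorem dC_lt {m r na nb N : ℕ} (hr : 0 < r) (hrm : r < m) (hN2 : 2 ≤ N) (ha : 1 ≤ na)
    (hb : 1 ≤ nb) (hN : N + 1 = na + nb) : dC m r na nb < N := by
  unfold dC
  rw [Nat.div_lt_iff_lt_mul (by omega)]
  obtain ⟨s, rfl⟩ : ∃ s, m = r + s := ⟨m - r, by omega⟩
  obtain ⟨x, rfl⟩ : ∃ x, na = x + 1 := ⟨na - 1, by omega⟩
  obtain ⟨y, rfl⟩ : ∃ y, nb = y + 1 := ⟨nb - 1, by omega⟩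
  have hs : r + s - r = s := by omega
  have hs0 : 0 < s := by omega
  rw [hs]
  have hNx : N = x + y + 1 := by omega
  rw [hNx]
  have h1 : 0 < s * x + r * y := by
    rcases Nat.eq_zero_or_pos x with h | h
    · have : 0 < y := by omega
      have := Nat.mul_pos hr this
      omega
    · have := Nat.mul_pos hs0 h
      omega
  nlinarith

theorem c_FewG (hStep : S_Step) (hNV : C_NV) (hFrac : S_Frac) (hHWb : C_HWb) (hHWdeg : C_HWdeg)
    (hHWrank : C_HWrank) : C_FewG := by
  intro m r na nb N hr hrm hmn hN2 hna hnb A _ _ _ _ a b D P S hF hOk hSt G hG ε hε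
  classical
  have hN := hF.2.1
  have hdn : dC m r na nb < N := dC_lt hr hrm hN2 hna hnb hN
  have hm0 : 0 < m := by omega
  obtain ⟨a₃, ha₃, hfr⟩ := frameC hHWb hHWrank hr hrm hmn hF hOk
  let em : Fin (dC m r na nb) → Fin N := Fin.castLE hdn.le
  have hem : Function.Injective em := Fin.castLE_injective hdn.le
  set d := G.totalDegree with hd
  have hη₀ : MvPolynomial.rename (Prod.map id em : Fin (dC m r na nb) × Fin (dC m r na nb) →
      Fin (dC m r na nb) × Fin N) G ≠ 0 := by
    intro h0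
    apply hG
    apply MvPolynomial.rename_injective _ (Function.injective_id.prodMap hem)
    rw [h0, map_zero]
  have hq0 : D.W ≠ 0 := by
    intro h0
    rcases mul_eq_zero.1 h0 with h1 | h1
    · exact X_sub_C_ne_zero _ h1
    · apply hOk.1
      rw [h1, eval_zero]
  set T₀ := max (a.support.sup fun i => (a.coeff i).natDegree)
    (b.support.sup fun i => (b.coeff i).natDegree) with hT₀
  have hTa : ∀ i, (a.coeff i).natDegree ≤ T₀ := by
    intro i
    by_cases hj : i ∈ a.support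
    · exact (Finset.le_sup (f := fun i => (a.coeff i).natDegree) hj).trans (le_max_left _ _)
    · rw [notMem_support_iff.1 hj, natDegree_zero]
      exact Nat.zero_le _
  have hTb : ∀ i, (b.coeff i).natDegree ≤ T₀ := by
    intro i
    by_cases hj : i ∈ b.support
    · exact (Finset.le_sup (f := fun i => (b.coeff i).natDegree) hj).trans (le_max_right _ _)
    · rw [notMem_support_iff.1 hj, natDegree_zero]
      exact Nat.zero_le _
  obtain ⟨e, A₀, β, p₁, a₁, ha₁, hst⟩ := stepJ hStep A (Fin (dC m r na nb) × Fin N)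
    (Jd (dC m r na nb) N d) (MvPolynomial.rename (Prod.map id em) G)
    (fun u => ∏ s, (MvPolynomial.X s) ^ u.1 s) hη₀ D.W (M0k D.W D.M (Fk em G)) (Mm D.M) hq0 ε hε
    ((univ.sup fun u : Jd (dC m r na nb) N d => (Fk em G u).natDegree) + d * T₀)
  set Dm := univ.sup fun u : Jd (dC m r na nb) N d => (Fk em G u).natDegree with hDm
  obtain ⟨p₂, a₂, ha₂, hnv⟩ := hNV N (dC m r na nb) hN2 hdn A D hOk hSt e A₀ β
  refine ⟨p₁ + p₂ + N + m + 3, a₁ * a₂ * a₃, mul_ne_zero (mul_ne_zero ha₁ ha₂) ha₃, ?_⟩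
  intro p _ k _ _ φ hp hmp hφ T hT
  rw [map_mul, map_mul] at hφ
  have hφ₁ := left_ne_zero_of_mul (left_ne_zero_of_mul hφ)
  have hφ₂ := right_ne_zero_of_mul (left_ne_zero_of_mul hφ)
  have hφ₃ := right_ne_zero_of_mul hφ
  obtain ⟨hode', hor, hrk⟩ := hfr p k φ (by omega) hmp hφ₃
  obtain ⟨D', hD', -⟩ := hFrac k
  obtain ⟨Y, hY⟩ : ∃ Y : Matrix (Fin (dC m r na nb)) (Fin N) k[X], Y =
    YC p (r * ((p - 1) / m)) ((m - r) * ((p - 1) / m)) (dC m r na nb) N
      (a.map (mapRingHom φ)) (b.map (mapRingHom φ)) := ⟨_, rfl⟩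
  have hdY : ∀ i l, (Y i l).natDegree ≤ T₀ * p := by
    intro i l
    rw [hY]
    refine hHWdeg k p (r * ((p - 1) / m)) ((m - r) * ((p - 1) / m)) (dC m r na nb) N T₀
      (a.map (mapRingHom φ)) (b.map (mapRingHom φ)) ?_ ?_ ?_ i l
    · intro i
      rw [coeff_map, coe_mapRingHom]
      exact natDegree_map_le.trans (hTa i)
    · intro i
      rw [coeff_map, coe_mapRingHom]
      exact natDegree_map_le.trans (hTb i)
    · rw [← add_mul, Nat.add_sub_cancel' hrm.le, Nat.mul_div_cancel' hmp]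
      exact Nat.sub_le _ _
  have hYs : ∀ s : Fin (dC m r na nb) × Fin (dC m r na nb),
      YC p (r * ((p - 1) / m)) ((m - r) * ((p - 1) / m)) (dC m r na nb) (dC m r na nb)
        (a.map (mapRingHom φ)) (b.map (mapRingHom φ)) s.1 s.2 = Y s.1 (em s.2) := by
    intro s
    rw [hY]
    rfl
  rw [← hY] at hode' hor hrk
  have hNVp := hnv p k φ (by omega) hφ₂ D' hD' (Y.map (ι k)) (hor D' hD') hrk
  have hbφ : ∀ i j, (D.M i j).map φ = (D.map φ).M i j := fun i j => rfl
  have hode : ∀ i l, D.W.map φ * derivative (Y i l) = ∑ j, Y i j * (D.map φ).M j l := by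
    intro i l
    rw [← map_Wc]
    exact hode' i l
  have hZ₀ := sum_Fk (d := d) φ em G le_rfl Y
  have hdm : ∀ v : Jd (dC m r na nb) N d, (mon Y v.1).natDegree ≤ d * T₀ * p := by
    intro v
    refine (natDegree_mon _ _ hdY v.1).trans ?_
    rw [mul_assoc]
    exact Nat.mul_le_mul_right _ v.2
  refine hst p k φ (by omega) hφ₁ (MvPolynomial.eval₂ (mapRingHom φ)
    (fun s : Fin (dC m r na nb) × Fin (dC m r na nb) => Y s.1 (em s.2)) G)
    (fun v => mon Y v.1) (fun s => (Y.map (ι k)) s.1 s.2) ?_ ?_ ?_ ?_ ?_ ?_ hNVp T ?_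
  · rw [MvPolynomial.eval₂_rename, MvPolynomial.eval₂_comp_left]
    rfl
  · intro v
    rw [mon, map_prod, ← MvPolynomial.coe_eval₂Hom, map_prod]
    refine Finset.prod_congr rfl fun s _ => ?_
    rw [map_pow, map_pow, MvPolynomial.coe_eval₂Hom, MvPolynomial.eval₂_X]
    rfl
  · rw [hZ₀]
    exact ode_zero_k φ D.W D.M _ hbφ (Fk em G) _ hode
  · intro v
    rw [mon_ode' _ _ _ hode v]
    refine Finset.sum_congr rfl fun v' _ => ?_
    rw [map_Mm φ D.M _ hbφ]
  · rw [hZ₀, add_mul]
    refine natDegree_sum_le_of_forall_le _ _ fun v _ => ?_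
    refine natDegree_mul_le.trans (Nat.add_le_add ?_ (hdm v))
    have h1 : ((Fk em G v).map φ).natDegree ≤ Dm := by
      refine natDegree_map_le.trans ?_
      exact Finset.le_sup (f := fun v : Jd (dC m r na nb) N d => (Fk em G v).natDegree)
        (Finset.mem_univ v)
    exact h1.trans (Nat.le_mul_of_pos_right _ (by omega))
  · intro v
    refine (hdm v).trans ?_
    rw [add_mul]
    exact Nat.le_add_left _ _
  · intro t ht
    obtain ⟨h1, h3⟩ := hT t ht
    refine ⟨h1, ?_⟩
    rw [← coe_evalRingHom, MvPolynomial.eval₂_comp_left]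
    refine Eq.trans ?_ h3
    congr 1
    funext s
    rw [hYs]
    rfl

end Pool.Agent.Helper36.CX
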